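import Mathlib
import Pool.Agent.Helper65.SL.Base

/-!
Project SL (MP_1eb6eb_gt), module NFM: the conformally changed slice is a smooth metric.
-/

set_option maxSynthPendingDepth 3
set_option linter.unusedSectionVars false
set_option linter.deprecated false
set_option linter.unusedVariables false

namespace Pool.Agent.Helper91.SL

open Filter Topology
open scoped ContDiff Manifold
open Pool.Agent.Helper65.SL Pool.Agent.Helper23.Ric

section manifold

variable {E₁ E₂ : Type*} [NormedAddCommGroup E₁] [NormedSpace ℝ E₁] [FiniteDimensional ℝ E₁]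
  [NormedAddCommGroup E₂] [NormedSpace ℝ E₂] [FiniteDimensional ℝ E₂]
  {H₁ H₂ : Type*} [TopologicalSpace H₁] [TopologicalSpace H₂]
  {I : ModelWithCorners ℝ E₁ H₁} {J : ModelWithCorners ℝ E₂ H₂} [I.Boundaryless] [J.Boundaryless]
  {M N : Type*} [TopologicalSpace M] [TopologicalSpace N]
  [ChartedSpace H₁ M] [IsManifold I 1 M] [ChartedSpace H₂ N] [IsManifold J 1 N]

theorem split_chart (g : RMetric (I.prod J) (M × N)) (ho : OrthSlices g) (x : M) (y : N) :
    SplitAt (inChart (I.prod J) g.form (x, y)) (extChartAt I x x) (extChartAt J y y) := by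
  refine ⟨?_, ?_⟩
  · have := goodAt_chart g (x, y)
    rwa [prod_self] at this
  · filter_upwards [target_prod_eventually (I := I) (J := J) x y] with p hp u v
    obtain ⟨w, z⟩ := p
    rw [inChart_prod_apply g hp.1 hp.2]
    simp only [map_zero]
    exact ho _ _ _ _

theorem nfm (m : ℕ) (b : Module.Basis (Fin 2) ℝ E₁) (g : RMetric (I.prod J) (M × N))
    (ho : OrthSlices g) (x₀ : M) :
    ∃ h : RMetric J N, h.form = newForm m b g x₀ := by
  have hx := mem_of_mem_nhds (target_nhds (I := I) x₀)
  refine ⟨⟨newForm m b g x₀, ?_, ?_, ?_⟩, rfl⟩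
  · intro y v w
    change Real.exp _ * _ = Real.exp _ * _
    congr 1
    exact g.at_symm _ _ _
  · intro y v hv
    change 0 < Real.exp _ * _
    refine mul_pos (Real.exp_pos _) (g.at_pos _ ?_)
    intro h0
    apply hv
    have : ((0 : E₁), (v : E₂)) = 0 := h0
    exact (Prod.mk.inj this).2
  · intro y
    have hb := split_chart g ho x₀ y
    have hs : ContDiffAt ℝ ∞ (inChart (I.prod J) g.form (x₀, y))
        (extChartAt I x₀ x₀, extChartAt J y y) := by
      have := g.smooth (x₀, y)
      rwa [prod_self] at this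
    refine ContDiffAt.congr_of_eventuallyEq ?_ (newForm_chart m b g x₀ y)
    have hW : ContDiffAt ℝ ∞ (blockW (inChart (I.prod J) g.form (x₀, y)) (extChartAt I x₀ x₀))
        (extChartAt J y y) := contDiffAt_block (ContinuousLinearMap.inr ℝ E₁ E₂) hs
    have hV : ContDiffAt ℝ ∞ (blockV (inChart (I.prod J) g.form (x₀, y)) (extChartAt I x₀ x₀))
        (extChartAt J y y) := contDiffAt_block (ContinuousLinearMap.inl ℝ E₁ E₂) hs
    have hsig : ContDiffAt ℝ ∞ (sig b (inChart (I.prod J) g.form (x₀, y)) (extChartAt I x₀ x₀))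
        (extChartAt J y y) := by
      have hV' := hV
      rw [← blockV_freeze] at hV'
      have h1 := contDiffAt_sig b hb.freeze hV'
      have h2 : sig b (freeze (inChart (I.prod J) g.form (x₀, y)) (extChartAt I x₀ x₀))
          (extChartAt I x₀ x₀) =
          sig b (inChart (I.prod J) g.form (x₀, y)) (extChartAt I x₀ x₀) := by
        funext z
        simp only [sig, blockV_freeze]
      rwa [h2] at h1
    have hphi : ContDiffAt ℝ ∞ (phi m b (inChart (I.prod J) g.form (x₀, y))
        (extChartAt I x₀ x₀)) (extChartAt J y y) :=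
      contDiffAt_const.mul hsig
    exact ((contDiffAt_const.mul hphi).exp).smul hW

end manifold

end Pool.Agent.Helper91.SL
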