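import Mathlib
import Pool.Agent.Helper65.SL.Base

/-!
Project SL (MP_1eb6eb_gt), module FI2: assembly of part (ii).
-/

set_option maxSynthPendingDepth 3
set_option linter.unusedSectionVars false
set_option linter.deprecated false
set_option linter.unusedVariables false

namespace Pool.Agent.Helper91.SL

open Filter Topology
open scoped ContDiff Manifold
open Pool.Agent.Helper65.SL Pool.Agent.Helper23.Ric

section manifold

variable {E₁ E₂ : Type*} [NormedAddCommGroup E₁] [NormedSpace ℝ E₁] [FiniteDimensional ℝ E₁]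
  [NormedAddCommGroup E₂] [NormedSpace ℝ E₂] [FiniteDimensional ℝ E₂]
  {H₁ H₂ : Type*} [TopologicalSpace H₁] [TopologicalSpace H₂]
  {I : ModelWithCorners ℝ E₁ H₁} {J : ModelWithCorners ℝ E₂ H₂} [I.Boundaryless] [J.Boundaryless]
  {M N : Type*} [TopologicalSpace M] [TopologicalSpace N]
  [ChartedSpace H₁ M] [IsManifold I ∞ M] [ChartedSpace H₂ N] [IsManifold J ∞ N]

/-- a function on the product in a slice -/
theorem slice_smooth (Θ : M → N → ℝ) (x : M) (y : N)
    (h : ContDiffAt ℝ ∞ (fun p : E₁ × E₂ =>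
        Θ ((extChartAt I x).symm p.1) ((extChartAt J y).symm p.2))
        (extChartAt I x x, extChartAt J y y)) :
    ContDiffAt ℝ ∞ (fun z : E₂ => Θ x ((extChartAt J y).symm z)) (extChartAt J y y) := by
  have hg : ContDiffAt ℝ ∞ (fun z : E₂ => (extChartAt I x x, z)) (extChartAt J y y) :=
    contDiffAt_const.prodMk contDiffAt_id
  have h1 := ContDiffAt.comp (extChartAt J y y) (g := fun p : E₁ × E₂ =>
        Θ ((extChartAt I x).symm p.1) ((extChartAt J y).symm p.2))
        (f := fun z : E₂ => (extChartAt I x x, z)) h hg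
  have h2 : ((fun p : E₁ × E₂ => Θ ((extChartAt I x).symm p.1) ((extChartAt J y).symm p.2)) ∘
      fun z : E₂ => (extChartAt I x x, z)) = fun z : E₂ => Θ x ((extChartAt J y).symm z) := by
    funext z
    simp only [Function.comp, extChartAt_to_inv]
  rwa [h2] at h1

theorem fi2 {m : ℕ} (hm : 2 ≤ m) (hdim : m = Module.finrank ℝ E₂)
    (cnf : ∀ {G : E₂ → E₂ →L[ℝ] E₂ →L[ℝ] ℝ} {z : E₂} {φ : E₂ → ℝ}, GoodAt G z → ContDiffAt ℝ 2 φ z →
      ∀ e : Fin m → E₂, IsOrtho (G z) e →
      ∑ i, ricci (conf φ G) z (Real.exp (-φ z) • e i) (Real.exp (-φ z) • e i) =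
        Real.exp (-2 * φ z) * pf m φ G z e)
    (sml : ∀ {G : E₂ → E₂ →L[ℝ] E₂ →L[ℝ] ℝ} {z : E₂}, GoodAt G z → ∀ {n : ℕ}, 0 < n → ∀ {k : ℝ}, 0 < k →
      ∀ θ : Fin n → E₂ → ℝ, (∀ j, ContDiffAt ℝ 2 (θ j) z) → ∀ e : Fin m → E₂,
      ∑ j, (Real.exp (-k * θ j z) / ∑ i, Real.exp (-k * θ i z)) * pf m (θ j) G z e ≤
        pf m (fun y => -(1 / k) * Real.log (∑ j, Real.exp (-k * θ j y))) G z e)
    (h₀ : RMetric J N) (Θ : M → N → ℝ)
    (hΘs : ∀ x y, ContDiffAt ℝ ∞ (fun p : E₁ × E₂ =>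
        Θ ((extChartAt I x).symm p.1) ((extChartAt J y).symm p.2))
        (extChartAt I x x, extChartAt J y y))
    (P : M → N → ℝ)
    (hP : ∀ x y (e : Fin m → E₂), IsOrtho (inChart J h₀.form y (extChartAt J y y)) e →
        pf m (fun z => Θ x ((extChartAt J y).symm z)) (inChart J h₀.form y) (extChartAt J y y) e
          = P x y)
    {n : ℕ} (hn : 0 < n) (x : Fin n → M) {k : ℝ} (hk : 0 < k)
    (hsum : ∀ y, 0 < ∑ j, (Real.exp (-k * Θ (x j) y) / ∑ i, Real.exp (-k * Θ (x i) y)) * P (x j) y) :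
    ∃ h : RMetric J N, (∃ u : N → ℝ, ∀ y, h.form.at y = Real.exp (2 * u y) • h₀.form.at y) ∧
      KPosRicci m h := by
  obtain ⟨u, hu⟩ : ∃ u : N → ℝ, u = fun y => -(1 / k) * Real.log (∑ j, Real.exp (-k * Θ (x j) y)) :=
    ⟨_, rfl⟩
  obtain ⟨fm, hfm⟩ : ∃ fm : Forms J N, fm = fun y => Real.exp (2 * u y) • h₀.form.at y := ⟨_, rfl⟩
  have hne : Nonempty (Fin n) := ⟨⟨0, hn⟩⟩
  -- the chart function
  have hch : ∀ y, inChart J fm y =
      conf (fun z => u ((extChartAt J y).symm z)) (inChart J h₀.form y) := by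
    intro y
    funext z
    ext v w
    rw [inChart_apply, hfm]
    rfl
  have hθ : ∀ (y : N) (j : Fin n), ContDiffAt ℝ ∞
      (fun z : E₂ => Θ (x j) ((extChartAt J y).symm z)) (extChartAt J y y) :=
    fun y j => slice_smooth Θ (x j) y (hΘs (x j) y)
  have hũ : ∀ y, ContDiffAt ℝ ∞ (fun z => u ((extChartAt J y).symm z)) (extChartAt J y y) := by
    intro y
    rw [hu]
    refine contDiffAt_const.mul (ContDiffAt.log ?_ ?_)
    · exact ContDiffAt.sum fun j _ => (contDiffAt_const.mul (hθ y j)).exp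
    · exact (Finset.sum_pos (fun j _ => Real.exp_pos _) Finset.univ_nonempty).ne'
  refine ⟨⟨fm, ?_, ?_, ?_⟩, ⟨u, fun y => congrFun hfm y⟩, ?_⟩
  · intro y v w
    rw [hfm]
    change Real.exp _ * _ = Real.exp _ * _
    congr 1
    exact h₀.at_symm _ _ _
  · intro y v hv
    rw [hfm]
    change 0 < Real.exp _ * _
    exact mul_pos (Real.exp_pos _) (h₀.at_pos _ hv)
  · intro y
    rw [hch y]
    exact ((contDiffAt_const.mul (hũ y)).exp).smul (h₀.smooth y)
  · intro y e he
    change IsOrtho (inChart J fm y (extChartAt J y y)) e at he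
    change 0 < ∑ i, ricci (inChart J fm y) (extChartAt J y y) (e i) (e i)
    rw [hch y] at he ⊢
    obtain ⟨z, hz⟩ : ∃ z, z = extChartAt J y y := ⟨_, rfl⟩
    obtain ⟨G, hG⟩ : ∃ G, G = inChart J h₀.form y := ⟨_, rfl⟩
    obtain ⟨ũ, hũd⟩ : ∃ ũ : E₂ → ℝ, ũ = fun z => u ((extChartAt J y).symm z) := ⟨_, rfl⟩
    have hũs := hũ y
    have hgood := goodAt_chart h₀ y
    rw [← hz, ← hG, ← hũd] at he ⊢
    rw [← hz, ← hũd] at hũs
    rw [← hz, ← hG] at hgood
    have he0 : IsOrtho (G z) (fun i => Real.exp (ũ z) • e i) := by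
      intro i j
      have h1 := he i j
      change Real.exp (2 * ũ z) * G z (e i) (e j) = _ at h1
      rw [← h1]
      simp only [map_smul, ContinuousLinearMap.smul_apply, smul_eq_mul]
      rw [two_mul, Real.exp_add]
      ring
    have h1 := cnf hgood (hũs.of_le (by norm_cast)) _ he0
    have h2 : ∀ i, Real.exp (-ũ z) • Real.exp (ũ z) • e i = e i := by
      intro i
      rw [smul_smul, ← Real.exp_add, neg_add_cancel, Real.exp_zero, one_smul]
    simp only [h2] at h1
    rw [h1]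
    refine mul_pos (Real.exp_pos _) ?_
    have h3 := sml hgood hn hk (fun j z => Θ (x j) ((extChartAt J y).symm z))
      (fun j => by
        have := (hθ y j).of_le (m := 2) (by norm_cast)
        rwa [← hz] at this) (fun i => Real.exp (ũ z) • e i)
    have h4 : (fun z => -(1 / k) * Real.log (∑ j, Real.exp (-k * Θ (x j) ((extChartAt J y).symm z))))
        = ũ := by
      rw [hũd, hu]
    rw [h4] at h3
    refine lt_of_lt_of_le ?_ h3
    have h5 := hsum y
    have h6 : (extChartAt J y).symm z = y := by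
      rw [hz, extChartAt_to_inv]
    simp only [h6]
    have h7 : ∀ j, pf m (fun z => Θ (x j) ((extChartAt J y).symm z)) G z
        (fun i => Real.exp (ũ z) • e i) = P (x j) y := by
      intro j
      rw [hG, hz]
      rw [hG, hz] at he0
      exact hP (x j) y _ he0
    simp only [h7]
    exact h5

end manifold

end Pool.Agent.Helper91.SL
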