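import Mathlib
import Pool.Agent.Helper91.SL.M_FI2

/-!
Project SL (MP_1eb6eb_gt), module FAC: the factor `Θ`.
-/

set_option maxSynthPendingDepth 3
set_option linter.unusedSectionVars false
set_option linter.deprecated false
set_option linter.unusedVariables false

namespace Pool.Agent.Helper91.SL

open Filter Topology
open scoped ContDiff Manifold
open Pool.Agent.Helper65.SL Pool.Agent.Helper23.Ric

section manifold

variable {E₁ E₂ : Type*} [NormedAddCommGroup E₁] [NormedSpace ℝ E₁] [FiniteDimensional ℝ E₁]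
  [NormedAddCommGroup E₂] [NormedSpace ℝ E₂] [FiniteDimensional ℝ E₂]
  {H₁ H₂ : Type*} [TopologicalSpace H₁] [TopologicalSpace H₂]
  {I : ModelWithCorners ℝ E₁ H₁} {J : ModelWithCorners ℝ E₂ H₂} [I.Boundaryless] [J.Boundaryless]
  {M N : Type*} [TopologicalSpace M] [TopologicalSpace N]
  [ChartedSpace H₁ M] [IsManifold I ∞ M] [ChartedSpace H₂ N] [IsManifold J ∞ N]

theorem area_pos (b : Module.Basis (Fin 2) ℝ E₁) (g : RMetric (I.prod J) (M × N)) (x : M) (y : N) :
    0 < det2 b (fibreForm g x y) := by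
  refine det2_pos b ?_ ?_
  · intro v w
    exact g.at_symm (x, y) (v, 0) (w, 0)
  · intro v hv
    refine g.at_pos (x, y) (v := (v, 0)) ?_
    intro h0
    exact hv (Prod.mk.inj h0).1

theorem area_smooth (b : Module.Basis (Fin 2) ℝ E₁) (g : RMetric (I.prod J) (M × N)) (x₀ : M)
    (y : N) : ContDiffAt ℝ ∞ (fun z : E₂ => det2 b (fibreForm g x₀ ((extChartAt J y).symm z)))
      (extChartAt J y y) := by
  have hx := mem_of_mem_nhds (target_nhds (I := I) x₀)
  have hs : ContDiffAt ℝ ∞ (inChart (I.prod J) g.form (x₀, y))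
      (extChartAt I x₀ x₀, extChartAt J y y) := by
    have := g.smooth (x₀, y)
    rwa [prod_self] at this
  have hV : ContDiffAt ℝ ∞ (blockV (inChart (I.prod J) g.form (x₀, y)) (extChartAt I x₀ x₀))
      (extChartAt J y y) := contDiffAt_block (ContinuousLinearMap.inl ℝ E₁ E₂) hs
  have h1 := contDiffAt_det2 b hV
  refine ContDiffAt.congr_of_eventuallyEq h1 ?_
  filter_upwards [target_eventually y] with z hz
  congr 1
  ext u u'
  rw [blockV_apply, inChart_prod_apply g hx hz, dsymm_self, extChartAt_to_inv]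
  simp only [map_zero]
  rfl

theorem fac {m : ℕ} (hm : 2 ≤ m) (b : Module.Basis (Fin 2) ℝ E₁)
    (g : RMetric (I.prod J) (M × N)) (ho : OrthSlices g) (h₀ : RMetric J N)
    (ρ : M → N → ℝ) (hρ : ∀ x y, sliceForm g x y = ρ x y • h₀.form.at y)
    (hpos : ∀ x y, 0 < ρ x y)
    (hsm : ∀ x y, ContDiffAt ℝ ∞ (fun p : E₁ × E₂ =>
      ρ ((extChartAt I x).symm p.1) ((extChartAt J y).symm p.2)) (extChartAt I x x, extChartAt J y y))
    (κ : ℝ) (hκ : κ ≤ 2 * ((m : ℝ) - 1)) (α : M → ℝ) (β : N → ℝ)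
    (hA : ∀ x y, det2 b (fibreForm g x y) * ρ x y ^ κ = α x * β y) :
    ∃ (Θ : M → N → ℝ) (lam : M → ℝ) (c₁ : ℝ) (B : N → ℝ), 0 ≤ c₁ ∧
      (∀ x y, Θ x y = c₁ * Real.log (ρ x y) + B y) ∧
      (∀ x y, newForm m b g x y = Real.exp (2 * (Θ x y + lam x)) • h₀.form.at y) ∧
      ∀ x y, ContDiffAt ℝ ∞ (fun p : E₁ × E₂ =>
        Θ ((extChartAt I x).symm p.1) ((extChartAt J y).symm p.2))
        (extChartAt I x x, extChartAt J y y) := by
  rcases isEmpty_or_nonempty M with hM | ⟨⟨x₀⟩⟩
  · exact ⟨fun _ _ => 0, fun _ => 0, 0, fun _ => 0, le_rfl, fun x => isEmptyElim x,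
      fun x => isEmptyElim x, fun x => isEmptyElim x⟩
  have hm1 : (1 : ℝ) ≤ (m : ℝ) - 1 := by
    have : (2 : ℝ) ≤ m := by exact_mod_cast hm
    linarith
  obtain ⟨c, hc⟩ : ∃ c : ℝ, c = 1 / (4 * ((m : ℝ) - 1)) := ⟨_, rfl⟩
  have hc0 : 0 < c := by
    rw [hc]
    positivity
  have hcm : c * (4 * ((m : ℝ) - 1)) = 1 := by
    rw [hc]
    field_simp
  have hlog : ∀ x y, Real.log (det2 b (fibreForm g x y)) + κ * Real.log (ρ x y) =
      Real.log (α x) + Real.log (β y) := by
    intro x y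
    have h1 := area_pos b g x y
    have h2 : 0 < ρ x y ^ κ := Real.rpow_pos_of_pos (hpos x y) κ
    have h3 : 0 < α x * β y := by
      rw [← hA x y]
      exact mul_pos h1 h2
    have h4 : α x ≠ 0 := left_ne_zero_of_mul h3.ne'
    have h5 : β y ≠ 0 := right_ne_zero_of_mul h3.ne'
    rw [← Real.log_mul h4 h5, ← hA x y, Real.log_mul h1.ne' h2.ne', Real.log_rpow (hpos x y)]
  refine ⟨fun x y => (1 / 2 - κ * c) * Real.log (ρ x y) +
      c * (Real.log (det2 b (fibreForm g x₀ y)) + κ * Real.log (ρ x₀ y)),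
    fun x => c * (Real.log (α x) - Real.log (α x₀)), 1 / 2 - κ * c,
    fun y => c * (Real.log (det2 b (fibreForm g x₀ y)) + κ * Real.log (ρ x₀ y)), ?_,
    fun x y => rfl, ?_, ?_⟩
  · have : κ * c ≤ 2 * ((m : ℝ) - 1) * c := mul_le_mul_of_nonneg_right hκ hc0.le
    linarith
  · intro x y
    have h1 : newForm m b g x y = Real.exp (2 * psi m b g x y) • sliceForm g x y := rfl
    rw [h1, hρ, smul_smul]
    congr 1
    have h2 : psi m b g x y = c * Real.log (det2 b (fibreForm g x y)) := by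
      rw [psi, hc]
      field_simp
      ring
    rw [h2]
    have h3 : ρ x y = Real.exp (Real.log (ρ x y)) := (Real.exp_log (hpos x y)).symm
    conv_lhs => rw [h3]
    rw [← Real.exp_add]
    congr 1
    have h4 := hlog x y
    have h5 := hlog x₀ y
    linear_combination (2 * c) * h4 - (2 * c) * h5
  · intro x y
    have h1 : ContDiffAt ℝ ∞ (fun p : E₁ × E₂ =>
        Real.log (ρ ((extChartAt I x).symm p.1) ((extChartAt J y).symm p.2)))
        (extChartAt I x x, extChartAt J y y) := (hsm x y).log (hpos _ _).ne'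
    have h2 : ContDiffAt ℝ ∞ (fun z : E₂ =>
        c * (Real.log (det2 b (fibreForm g x₀ ((extChartAt J y).symm z))) +
          κ * Real.log (ρ x₀ ((extChartAt J y).symm z)))) (extChartAt J y y) := by
      refine contDiffAt_const.mul (ContDiffAt.add ?_ ?_)
      · exact (area_smooth b g x₀ y).log (area_pos b g x₀ _).ne'
      · exact contDiffAt_const.mul ((slice_smooth ρ x₀ y (hsm x₀ y)).log (hpos _ _).ne')
    have h3 : ContDiffAt ℝ ∞ (fun p : E₁ × E₂ =>
        c * (Real.log (det2 b (fibreForm g x₀ ((extChartAt J y).symm p.2))) +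
          κ * Real.log (ρ x₀ ((extChartAt J y).symm p.2))))
        (extChartAt I x x, extChartAt J y y) :=
      ContDiffAt.comp (extChartAt I x x, extChartAt J y y) (g := fun z : E₂ =>
        c * (Real.log (det2 b (fibreForm g x₀ ((extChartAt J y).symm z))) +
          κ * Real.log (ρ x₀ ((extChartAt J y).symm z)))) (f := fun p : E₁ × E₂ => p.2) h2
        contDiffAt_snd
    exact (contDiffAt_const.mul h1).add h3

end manifold

end Pool.Agent.Helper91.SL
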